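import Mathlib

set_option autoImplicit false

namespace Pool.Agent.Results.MP_6bdaeb_co.Superlinear

/-- the ball of radius `r` about `v`, as a vertex set -/
def ballSet {V : Type} (G : SimpleGraph V) (v : V) (r : ℕ) : Set V := {x | G.dist v x ≤ r}

lemma root_mem {V : Type} (G : SimpleGraph V) (v : V) (r : ℕ) : v ∈ ballSet G v r := by
  show G.dist v v ≤ r
  rw [SimpleGraph.dist_self]
  exact Nat.zero_le r

/-- the rooted balls of radius `r` about `v` in `G` and about `w` in `H` (induced subgraphs)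
are isomorphic as rooted graphs -/
def SameBall {V W : Type} (G : SimpleGraph V) (v : V) (H : SimpleGraph W) (w : W) (r : ℕ) : Prop :=
  ∃ φ : G.induce (ballSet G v r) ≃g H.induce (ballSet H w r),
    φ ⟨v, root_mem G v r⟩ = ⟨w, root_mem H w r⟩

/-- a map inducing an isomorphism of balls -/
structure BM {V W : Type} (G : SimpleGraph V) (v : V) (H : SimpleGraph W) (w : W) (r : ℕ)
    (f : V → W) : Prop where
  root : f v = w
  adj : ∀ x y, G.dist v x ≤ r → G.dist v y ≤ r → (G.Adj x y ↔ H.Adj (f x) (f y))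
  inj : ∀ x y, G.dist v x ≤ r → G.dist v y ≤ r → f x = f y → x = y
  mem : ∀ x, G.dist v x ≤ r → H.dist w (f x) ≤ r
  surj : ∀ y, H.dist w y ≤ r → ∃ x, G.dist v x ≤ r ∧ f x = y

lemma SameBall.exists_map {V W : Type} {G : SimpleGraph V} {v : V} {H : SimpleGraph W} {w : W}
    {r : ℕ} (h : SameBall G v H w r) : ∃ f, BM G v H w r f := by
  classical
  obtain ⟨φ, hφ⟩ := h
  refine ⟨fun x => if h : G.dist v x ≤ r then (φ ⟨x, h⟩).1 else w, ?_, ?_, ?_, ?_, ?_⟩
  · have h0 : G.dist v v ≤ r := root_mem G v r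
    show (if h : G.dist v v ≤ r then (φ ⟨v, h⟩).1 else w) = w
    rw [dif_pos h0, hφ]
  · intro x y hx hy
    simp only [dif_pos hx, dif_pos hy]
    have := φ.map_adj_iff (v := ⟨x, hx⟩) (w := ⟨y, hy⟩)
    rw [SimpleGraph.comap_adj, SimpleGraph.comap_adj] at this
    exact this.symm
  · intro x y hx hy he
    simp only [dif_pos hx, dif_pos hy] at he
    have := φ.injective (Subtype.ext he)
    exact congrArg Subtype.val this
  · intro x hx
    simp only [dif_pos hx]
    exact (φ ⟨x, hx⟩).2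
  · intro y hy
    refine ⟨(φ.symm ⟨y, hy⟩).1, (φ.symm ⟨y, hy⟩).2, ?_⟩
    have h1 : G.dist v (φ.symm ⟨y, hy⟩).1 ≤ r := (φ.symm ⟨y, hy⟩).2
    simp only [dif_pos h1]
    show (φ (φ.symm ⟨y, hy⟩)).1 = y
    rw [RelIso.apply_symm_apply]

lemma BM.sameBall {V W : Type} {G : SimpleGraph V} {v : V} {H : SimpleGraph W} {w : W}
    {r : ℕ} {f : V → W} (h : BM G v H w r f) : SameBall G v H w r := by
  let e : ballSet G v r ≃ ballSet H w r := Equiv.ofBijective
    (fun x => ⟨f x.1, h.mem x.1 x.2⟩) (by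
      constructor
      · intro x y hxy
        exact Subtype.ext (h.inj x.1 y.1 x.2 y.2 (congrArg Subtype.val hxy))
      · rintro ⟨y, hy⟩
        obtain ⟨x, hx, hxy⟩ := h.surj y hy
        exact ⟨⟨x, hx⟩, Subtype.ext hxy⟩)
  refine ⟨⟨e, ?_⟩, ?_⟩
  · intro x y
    exact (h.adj x.1 y.1 x.2 y.2).symm
  · exact Subtype.ext h.root

lemma iso_dist_le {V : Type} {G : SimpleGraph V} {W : Type} {H : SimpleGraph W} (φ : G ≃g H)
    (x y : V) (h : G.Reachable x y) : H.dist (φ x) (φ y) ≤ G.dist x y := by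
  obtain ⟨p, hp⟩ := h.exists_walk_length_eq_dist
  have h1 := SimpleGraph.dist_le (p.map φ.toHom)
  rw [SimpleGraph.Walk.length_map, hp] at h1
  exact h1

lemma iso_dist {V : Type} {G : SimpleGraph V} {W : Type} {H : SimpleGraph W} (φ : G ≃g H) (x y : V) :
    H.dist (φ x) (φ y) = G.dist x y := by
  by_cases h : G.Reachable x y
  · apply le_antisymm (iso_dist_le φ x y h)
    have h2 := iso_dist_le φ.symm (φ x) (φ y) (φ.reachable_iff.2 h)
    rwa [RelIso.symm_apply_apply, RelIso.symm_apply_apply] at h2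
  · rw [SimpleGraph.dist_eq_zero_of_not_reachable h,
      SimpleGraph.dist_eq_zero_of_not_reachable (fun h2 => h (φ.reachable_iff.1 h2))]

lemma BM.transport {V W : Type} {G : SimpleGraph V} {v : V} {H : SimpleGraph W} {w : W}
    {r : ℕ} {f : V → W} (h : BM G v H w r f) (θ : G ≃g G) (ψ : H ≃g H) :
    BM G (θ v) H (ψ w) r (fun x => ψ (f (θ.symm x))) := by
  have hd : ∀ x, G.dist (θ v) x = G.dist v (θ.symm x) := by
    intro x
    have := iso_dist θ v (θ.symm x)
    rwa [RelIso.apply_symm_apply] at this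
  refine ⟨?_, ?_, ?_, ?_, ?_⟩
  · show ψ (f (θ.symm (θ v))) = ψ w
    rw [RelIso.symm_apply_apply, h.root]
  · intro x y hx hy
    rw [hd] at hx hy
    rw [ψ.map_adj_iff, ← h.adj _ _ hx hy, θ.symm.map_adj_iff]
  · intro x y hx hy he
    rw [hd] at hx hy
    have := h.inj _ _ hx hy (ψ.injective he)
    exact θ.symm.injective this
  · intro x hx
    rw [hd] at hx
    rw [iso_dist]
    exact h.mem _ hx
  · intro y hy
    have h1 : H.dist w (ψ.symm y) ≤ r := by
      have := iso_dist ψ w (ψ.symm y)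
      rw [RelIso.apply_symm_apply] at this
      omega
    obtain ⟨x, hx, hxy⟩ := h.surj _ h1
    refine ⟨θ x, ?_, ?_⟩
    · rw [hd, RelIso.symm_apply_apply]; exact hx
    · show ψ (f (θ.symm (θ x))) = y
      rw [RelIso.symm_apply_apply, hxy, RelIso.apply_symm_apply]

/-! Cayley graphs -/

/-- a group with a finite symmetric generating system -/
structure CS (A : Type) [Group A] (n : ℕ) where
  gen : Fin n → A
  iv : Fin n → Fin n
  hiv : ∀ i, gen (iv i) = (gen i)⁻¹
  one : ∀ i, gen i ≠ 1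
  inj : Function.Injective gen
  top : ∀ g : A, ∃ u : List (Fin n), (u.map gen).prod = g

namespace CS

variable {A : Type} [Group A] {n : ℕ} (S : CS A n)

/-- value of a word -/
def ev (u : List (Fin n)) : A := (u.map S.gen).prod

lemma ev_nil : S.ev [] = 1 := rfl
lemma ev_cons (i : Fin n) (u : List (Fin n)) : S.ev (i :: u) = S.gen i * S.ev u := by
  unfold ev; rw [List.map_cons, List.prod_cons]
lemma ev_append (u v : List (Fin n)) : S.ev (u ++ v) = S.ev u * S.ev v := by
  unfold ev; rw [List.map_append, List.prod_append]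

/-- the Cayley graph: `g` is adjacent to `gen i * g` -/
def Cay : SimpleGraph A where
  Adj g h := ∃ i, h = S.gen i * g
  symm := ⟨fun g h ⟨i, hi⟩ => ⟨S.iv i, by rw [hi, S.hiv, inv_mul_cancel_left]⟩⟩
  loopless := ⟨fun g ⟨i, hi⟩ => S.one i (by
    have : 1 * g = S.gen i * g := by rw [one_mul]; exact hi
    exact (mul_right_cancel this).symm)⟩

lemma adj_iff {g h : A} : S.Cay.Adj g h ↔ ∃ i, h = S.gen i * g := Iff.rfl

/-- right translation -/
def rm (a : A) : S.Cay ≃g S.Cay where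
  toEquiv := Equiv.mulRight a
  map_rel_iff' := by
    intro g h
    rw [adj_iff, adj_iff]
    show (∃ i, h * a = S.gen i * (g * a)) ↔ _
    simp only [← mul_assoc, mul_left_inj]

lemma rm_apply (a g : A) : S.rm a g = g * a := rfl

lemma trans (g h : A) : ∃ φ : S.Cay ≃g S.Cay, φ g = h :=
  ⟨S.rm (g⁻¹ * h), by rw [rm_apply, mul_inv_cancel_left]⟩

lemma reach (u : List (Fin n)) (a : A) : S.Cay.Reachable a (S.ev u * a) := by
  induction u with
  | nil => rw [ev_nil, one_mul]
  | cons i u ih =>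
    refine ih.trans (SimpleGraph.Adj.reachable ?_)
    rw [ev_cons, mul_assoc]
    exact ⟨i, rfl⟩

lemma conn : S.Cay.Connected := by
  have hne : Nonempty A := ⟨1⟩
  refine ⟨fun a b => ?_⟩
  obtain ⟨u, hu⟩ := S.top (b * a⁻¹)
  have := S.reach u a
  unfold ev at this
  rwa [hu, inv_mul_cancel_right] at this

lemma walk_word {a b : A} (p : S.Cay.Walk a b) : ∃ u : List (Fin n), u.length = p.length ∧
    S.ev u * a = b := by
  induction p with
  | nil => exact ⟨[], rfl, one_mul _⟩
  | cons h p ih =>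
    obtain ⟨u, h1, h2⟩ := ih
    obtain ⟨i, hi⟩ := S.adj_iff.1 h
    refine ⟨u ++ [i], ?_, ?_⟩
    · rw [List.length_append, List.length_singleton, SimpleGraph.Walk.length_cons, h1]
    · rw [ev_append, ev_cons, ev_nil, mul_one, mul_assoc, ← hi, h2]

lemma dist_word (g : A) : ∃ u : List (Fin n), u.length = S.Cay.dist 1 g ∧ S.ev u = g := by
  obtain ⟨p, hp⟩ := S.conn.exists_walk_length_eq_dist 1 g
  obtain ⟨u, h1, h2⟩ := S.walk_word p
  exact ⟨u, by rw [h1, hp], by rwa [mul_one] at h2⟩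

lemma dist_ev (u : List (Fin n)) : S.Cay.dist 1 (S.ev u) ≤ u.length := by
  induction u with
  | nil => rw [ev_nil, SimpleGraph.dist_self]; exact Nat.zero_le _
  | cons i u ih =>
    have h1 := S.conn.dist_triangle (u := 1) (v := S.ev u) (w := S.ev (i :: u))
    have h2 : S.Cay.Adj (S.ev u) (S.ev (i :: u)) := ⟨i, S.ev_cons i u⟩
    have h3 := SimpleGraph.dist_eq_one_iff_adj.2 h2
    rw [List.length_cons]
    omega

lemma dist_gen_mul (i : Fin n) (g : A) : S.Cay.dist 1 (S.gen i * g) ≤ S.Cay.dist 1 g + 1 := by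
  have h1 := S.conn.dist_triangle (u := 1) (v := g) (w := S.gen i * g)
  have h2 : S.Cay.Adj g (S.gen i * g) := ⟨i, rfl⟩
  have h3 := SimpleGraph.dist_eq_one_iff_adj.2 h2
  omega

/-- the link of the root, as a relation on indices -/
def link (i j : Fin n) : Prop := ∃ k, S.gen j = S.gen k * S.gen i

end CS

section Local

variable {A : Type} [Group A] {n : ℕ} (S : CS A n) {W : Type} (H : SimpleGraph W)

/-- labelled neighbourhoods -/
def IsStep (w : W) (e : Fin n → W) : Prop :=
  Function.Injective e ∧ (∀ u, H.Adj w u ↔ ∃ i, e i = u) ∧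
    (∀ i j, H.Adj (e i) (e j) ↔ S.link i j)

/-- rigidity of the link -/
def Rigid : Prop := ∀ f : Fin n → Fin n, Function.Bijective f →
  (∀ i j, S.link (f i) (f j) ↔ S.link i j) → f = id

variable {S H}

lemma IsStep.uniq (hr : Rigid S) {w : W} {e e' : Fin n → W} (h : IsStep S H w e)
    (h' : IsStep S H w e') : e = e' := by
  have h1 : ∀ i, ∃ j, e' j = e i := fun i => (h'.2.1 (e i)).1 ((h.2.1 (e i)).2 ⟨i, rfl⟩)
  choose f hf using h1
  have hinj : Function.Injective f := by
    intro i j hij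
    apply h.1
    rw [← hf, ← hf, hij]
  have hbij : Function.Bijective f := Finite.injective_iff_bijective.1 hinj
  have : f = id := hr f hbij (by
    intro i j
    rw [← h'.2.2, hf, hf, h.2.2])
  funext i
  rw [← hf, this]
  rfl

lemma BM.dist_le {r : ℕ} {w : W} {f : A → W} (hH : H.Connected) (h : BM S.Cay 1 H w r f)
    (u : List (Fin n)) (hu : u.length ≤ r) : H.dist w (f (S.ev u)) ≤ u.length := by
  induction u with
  | nil => rw [CS.ev_nil, h.root, SimpleGraph.dist_self]; exact Nat.zero_le _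
  | cons i u ih =>
    rw [List.length_cons] at hu ⊢
    have h1 := ih (by omega)
    have h2 : H.Adj (f (S.ev u)) (f (S.ev (i :: u))) := by
      rw [← h.adj]
      · exact ⟨i, S.ev_cons i u⟩
      · exact (S.dist_ev u).trans (by omega)
      · exact (S.dist_ev _).trans (by rw [List.length_cons]; omega)
    have h3 := hH.dist_triangle (u := w) (v := f (S.ev u)) (w := f (S.ev (i :: u)))
    have h4 := SimpleGraph.dist_eq_one_iff_adj.2 h2
    omega

lemma BM.isStep {r : ℕ} {w : W} {f : A → W} (hH : H.Connected) (h : BM S.Cay 1 H w r f)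
    {g : A} (hg : S.Cay.dist 1 g + 1 ≤ r) : IsStep S H (f g) (fun i => f (S.gen i * g)) := by
  have hd : ∀ i, S.Cay.dist 1 (S.gen i * g) ≤ r := fun i => (S.dist_gen_mul i g).trans hg
  have hg' : S.Cay.dist 1 g ≤ r := by omega
  refine ⟨?_, ?_, ?_⟩
  · intro i j hij
    exact S.inj (mul_right_cancel (h.inj _ _ (hd i) (hd j) hij))
  · intro u
    constructor
    · intro hu
      obtain ⟨v, hv, hv'⟩ := S.dist_word g
      have h1 := h.dist_le hH v (by omega)
      rw [hv', hv] at h1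
      have h2 := hH.dist_triangle (u := w) (v := f g) (w := u)
      have h3 := SimpleGraph.dist_eq_one_iff_adj.2 hu
      obtain ⟨x, hx, hxu⟩ := h.surj u (by omega)
      rw [← hxu, ← h.adj _ _ hg' hx] at hu
      obtain ⟨i, hi⟩ := hu
      exact ⟨i, by rw [← hxu, hi]⟩
    · rintro ⟨i, rfl⟩
      rw [← h.adj _ _ hg' (hd i)]
      exact ⟨i, rfl⟩
  · intro i j
    rw [← h.adj _ _ (hd i) (hd j), CS.adj_iff]
    unfold CS.link
    simp only [← mul_assoc, mul_left_inj]

/-- the local structure turned into an action of words -/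
structure Act (S : CS A n) (H : SimpleGraph W) (r : ℕ) where
  P : Fin n → Equiv.Perm W
  step : ∀ w, IsStep S H w (fun i => P i w)
  rel : ∀ u v : List (Fin n), u.length ≤ r → v.length ≤ r → S.ev u = S.ev v →
    (u.map P).prod = (v.map P).prod
  free : ∀ (u : List (Fin n)) (w : W), u.length ≤ r → (u.map P).prod w = w → S.ev u = 1

lemma exists_act {r : ℕ} (hH : H.Connected) (hr : Rigid S) (h2 : 2 ≤ r)
    (hB : ∀ w, ∃ f, BM S.Cay 1 H w r f) : Nonempty (Act S H r) := by
  choose f hf using hB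
  have h0 : ∀ w, IsStep S H w (fun i => f w (S.gen i)) := by
    intro w
    have h := (hf w).isStep hH (g := 1) (by rw [SimpleGraph.dist_self]; omega)
    rw [(hf w).root] at h
    simpa only [mul_one] using h
  set σ : Fin n → W → W := fun i w => f w (S.gen i) with hσ
  -- words of bounded length
  have hw : ∀ (u : List (Fin n)), u.length ≤ r → ∀ w,
      f w (S.ev u) = u.foldr (fun i x => σ i x) w := by
    intro u
    induction u with
    | nil => intro _ w; exact (hf w).root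
    | cons i u ih =>
      intro hu w
      rw [List.length_cons] at hu
      have h1 := (hf w).isStep hH (g := S.ev u) (by have := S.dist_ev u; omega)
      have h3 := h1.uniq hr (h0 (f w (S.ev u)))
      have h4 := congrFun h3 i
      rw [S.ev_cons, List.foldr_cons, ← ih (by omega)]
      exact h4
  have hiv2 : ∀ i, S.iv (S.iv i) = i := fun i => S.inj (by rw [S.hiv, S.hiv, inv_inv])
  have hσσ : ∀ i w, σ (S.iv i) (σ i w) = w := by
    intro i w
    have h1 := hw [S.iv i, i] (by simpa using h2) w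
    have h3 : S.ev [S.iv i, i] = 1 := by
      rw [S.ev_cons, S.ev_cons, S.ev_nil, mul_one, S.hiv, inv_mul_cancel]
    rw [h3, (hf w).root] at h1
    exact h1.symm
  let P : Fin n → Equiv.Perm W := fun i =>
    ⟨σ i, σ (S.iv i), hσσ i, fun w => by
      have := hσσ (S.iv i) w
      rwa [hiv2] at this⟩
  have hP : ∀ (u : List (Fin n)) (w : W), (u.map P).prod w = u.foldr (fun i x => σ i x) w := by
    intro u w
    induction u with
    | nil => rfl
    | cons i u ih =>
      rw [List.map_cons, List.prod_cons, Equiv.Perm.mul_apply, ih, List.foldr_cons]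
      rfl
  refine ⟨⟨P, h0, ?_, ?_⟩⟩
  · intro u v hu hv huv
    ext w
    rw [hP, hP, ← hw u hu, ← hw v hv, huv]
  · intro u w hu he
    rw [hP, ← hw u hu] at he
    have h1 : f w (S.ev u) = f w 1 := by rw [he, (hf w).root]
    apply (hf w).inj _ _ _ _ h1
    · exact (S.dist_ev u).trans hu
    · rw [SimpleGraph.dist_self]; exact Nat.zero_le _

lemma Act.aut {r : ℕ} (a : Act S H r) (hr : Rigid S) (ψ : H ≃g H) (i : Fin n) (w : W) :
    ψ (a.P i w) = a.P i (ψ w) := by
  have h1 : IsStep S H (ψ w) (fun i => ψ (a.P i w)) := by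
    have h := a.step w
    refine ⟨ψ.injective.comp h.1, ?_, ?_⟩
    · intro u
      have h3 := h.2.1 (ψ.symm u)
      rw [← ψ.map_adj_iff, RelIso.apply_symm_apply] at h3
      rw [h3]
      constructor
      · rintro ⟨i, hi⟩
        exact ⟨i, by
          show ψ (a.P i w) = u
          have : a.P i w = ψ.symm u := hi
          rw [this, RelIso.apply_symm_apply]⟩
      · rintro ⟨i, hi⟩
        exact ⟨i, by
          have : ψ (a.P i w) = u := hi
          rw [← this, RelIso.symm_apply_apply]⟩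
    · intro i j
      rw [ψ.map_adj_iff]
      exact h.2.2 i j
  exact congrFun (h1.uniq hr (a.step (ψ w))) i

lemma Act.aut_word {r : ℕ} (a : Act S H r) (hr : Rigid S) (ψ : H ≃g H) (u : List (Fin n)) (w : W) :
    ψ ((u.map a.P).prod w) = (u.map a.P).prod (ψ w) := by
  induction u generalizing w with
  | nil => rfl
  | cons i u ih =>
    rw [List.map_cons, List.prod_cons, Equiv.Perm.mul_apply, Equiv.Perm.mul_apply, a.aut hr, ih]

lemma Act.walk_word {r : ℕ} (a : Act S H r) {x y : W} (p : H.Walk x y) :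
    ∃ u : List (Fin n), u.length = p.length ∧ (u.map a.P).prod x = y := by
  induction p with
  | nil => exact ⟨[], rfl, rfl⟩
  | @cons x z y h p ih =>
    obtain ⟨u, h1, h2⟩ := ih
    obtain ⟨i, hi⟩ := ((a.step x).2.1 z).1 h
    refine ⟨u ++ [i], ?_, ?_⟩
    · rw [List.length_append, List.length_singleton, SimpleGraph.Walk.length_cons, h1]
    · rw [List.map_append, List.prod_append, Equiv.Perm.mul_apply]
      have : (List.map a.P [i]).prod x = z := by
        rw [List.map_cons, List.map_nil, List.prod_singleton]; exact hi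
      rw [this, h2]

end Local


/-- Heisenberg group over a ring -/
@[ext]
structure Hs (R : Type) where
  x : R
  y : R
  z : R

instance (R : Type) [DecidableEq R] : DecidableEq (Hs R) := fun a b =>
  decidable_of_iff (a.x = b.x ∧ a.y = b.y ∧ a.z = b.z) (by
    constructor
    · rintro ⟨h1, h2, h3⟩; exact Hs.ext h1 h2 h3
    · rintro rfl; exact ⟨rfl, rfl, rfl⟩)

namespace Hs

variable {R : Type} [CommRing R]

instance : Mul (Hs R) := ⟨fun a b => ⟨a.x + b.x, a.y + b.y, a.z + b.z + a.x * b.y⟩⟩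
instance : One (Hs R) := ⟨⟨0, 0, 0⟩⟩
instance : Inv (Hs R) := ⟨fun a => ⟨-a.x, -a.y, -a.z + a.x * a.y⟩⟩

lemma mul_x (a b : Hs R) : (a * b).x = a.x + b.x := rfl
lemma mul_y (a b : Hs R) : (a * b).y = a.y + b.y := rfl
lemma mul_z (a b : Hs R) : (a * b).z = a.z + b.z + a.x * b.y := rfl
lemma one_x : (1 : Hs R).x = 0 := rfl
lemma one_y : (1 : Hs R).y = 0 := rfl
lemma one_z : (1 : Hs R).z = 0 := rfl
lemma inv_x (a : Hs R) : (a⁻¹).x = -a.x := rfl
lemma inv_y (a : Hs R) : (a⁻¹).y = -a.y := rfl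
lemma inv_z (a : Hs R) : (a⁻¹).z = -a.z + a.x * a.y := rfl

instance : Group (Hs R) := Group.ofLeftAxioms
  (by
    intro a b c
    ext
    · simp only [mul_x]; ring
    · simp only [mul_y]; ring
    · simp only [mul_z, mul_x, mul_y]; ring)
  (by
    intro a
    ext
    · simp only [mul_x, one_x]; ring
    · simp only [mul_y, one_y]; ring
    · simp only [mul_z, one_z, one_x]; ring)
  (by
    intro a
    ext
    · simp only [mul_x, inv_x, one_x]; ring
    · simp only [mul_y, inv_y, one_y]; ring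
    · simp only [mul_z, inv_z, inv_x, one_z]; ring)

end Hs

/-- coordinates of the generators -/
def gl : Fin 12 → ℤ × ℤ × ℤ :=
  ![(-1, -2, 0), (-1, -1, 0), (-1, -1, 1), (-1, 0, 0), (0, -1, 0), (0, 0, -1), (0, 0, 1),
    (0, 1, 0), (1, 0, 0), (1, 1, 0), (1, 1, 1), (1, 2, 2)]

def gz (i : Fin 12) : Hs ℤ := ⟨(gl i).1, (gl i).2.1, (gl i).2.2⟩

lemma gz_inv : ∀ i, gz i.rev = (gz i)⁻¹ := by
  intro i
  show (⟨_, _, _⟩ : Hs ℤ) = ⟨_, _, _⟩
  revert i
  decide

lemma gz_one : ∀ i, gz i ≠ 1 := by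
  show ∀ i, gz i ≠ ⟨0, 0, 0⟩
  decide

lemma gz_inj : Function.Injective gz := by
  have : ∀ i j, gz i = gz j → i = j := by decide
  exact fun i j h => this i j h

def evz (u : List (Fin 12)) : Hs ℤ := (u.map gz).prod

lemma evz_cons (i : Fin 12) (u : List (Fin 12)) : evz (i :: u) = gz i * evz u := by
  unfold evz; rw [List.map_cons, List.prod_cons]
lemma evz_append (u v : List (Fin 12)) : evz (u ++ v) = evz u * evz v := by
  unfold evz; rw [List.map_append, List.prod_append]
lemma evz_rep (k : ℕ) (i : Fin 12) : evz (List.replicate k i) = gz i ^ k := by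
  unfold evz; rw [List.map_replicate, List.prod_replicate]

/-- the set of values of words -/
def rng : Submonoid (Hs ℤ) where
  carrier := {g | ∃ u, evz u = g}
  one_mem' := ⟨[], rfl⟩
  mul_mem' := by
    rintro _ _ ⟨u, rfl⟩ ⟨v, rfl⟩
    exact ⟨u ++ v, evz_append u v⟩

lemma gz_rng (i : Fin 12) : gz i ∈ rng := ⟨[i], by rw [evz_cons]; exact mul_one _⟩

lemma px (k : ℕ) : gz 8 ^ k = ⟨k, 0, 0⟩ := by
  induction k with
  | zero => rfl
  | succ k ih =>
    rw [pow_succ, ih]
    show (⟨(k : ℤ) + 1, (0 : ℤ) + 0, (0 : ℤ) + 0 + k * 0⟩ : Hs ℤ) = _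
    ext <;> simp

lemma px' (k : ℕ) : gz 3 ^ k = ⟨-k, 0, 0⟩ := by
  induction k with
  | zero => rfl
  | succ k ih =>
    rw [pow_succ, ih]
    show (⟨-(k : ℤ) + (-1), (0 : ℤ) + 0, (0 : ℤ) + 0 + (-k) * 0⟩ : Hs ℤ) = _
    ext
    · simp; ring
    · simp
    · simp

lemma py (k : ℕ) : gz 7 ^ k = ⟨0, k, 0⟩ := by
  induction k with
  | zero => rfl
  | succ k ih =>
    rw [pow_succ, ih]
    show (⟨(0 : ℤ) + 0, (k : ℤ) + 1, (0 : ℤ) + 0 + 0 * 1⟩ : Hs ℤ) = _
    ext <;> simp

lemma py' (k : ℕ) : gz 4 ^ k = ⟨0, -k, 0⟩ := by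
  induction k with
  | zero => rfl
  | succ k ih =>
    rw [pow_succ, ih]
    show (⟨(0 : ℤ) + 0, -(k : ℤ) + (-1), (0 : ℤ) + 0 + 0 * (-1)⟩ : Hs ℤ) = _
    ext
    · simp
    · simp; ring
    · simp

lemma pz (k : ℕ) : gz 6 ^ k = ⟨0, 0, k⟩ := by
  induction k with
  | zero => rfl
  | succ k ih =>
    rw [pow_succ, ih]
    show (⟨(0 : ℤ) + 0, (0 : ℤ) + 0, (k : ℤ) + 1 + 0 * 0⟩ : Hs ℤ) = _
    ext <;> simp

lemma pz' (k : ℕ) : gz 5 ^ k = ⟨0, 0, -k⟩ := by
  induction k with
  | zero => rfl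
  | succ k ih =>
    rw [pow_succ, ih]
    show (⟨(0 : ℤ) + 0, (0 : ℤ) + 0, -(k : ℤ) + (-1) + 0 * 0⟩ : Hs ℤ) = _
    ext
    · simp
    · simp
    · simp; ring

lemma all_rng (g : Hs ℤ) : ∃ u, evz u = g := by
  have hx : ∀ a : ℤ, (⟨a, 0, 0⟩ : Hs ℤ) ∈ rng := by
    intro a
    obtain ⟨k, rfl | rfl⟩ := Int.eq_nat_or_neg a
    · rw [← px]; exact rng.pow_mem (gz_rng _) _
    · rw [← px']; exact rng.pow_mem (gz_rng _) _
  have hy : ∀ a : ℤ, (⟨0, a, 0⟩ : Hs ℤ) ∈ rng := by
    intro a
    obtain ⟨k, rfl | rfl⟩ := Int.eq_nat_or_neg a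
    · rw [← py]; exact rng.pow_mem (gz_rng _) _
    · rw [← py']; exact rng.pow_mem (gz_rng _) _
  have hz : ∀ a : ℤ, (⟨0, 0, a⟩ : Hs ℤ) ∈ rng := by
    intro a
    obtain ⟨k, rfl | rfl⟩ := Int.eq_nat_or_neg a
    · rw [← pz]; exact rng.pow_mem (gz_rng _) _
    · rw [← pz']; exact rng.pow_mem (gz_rng _) _
  have : g = ⟨g.x, 0, 0⟩ * ⟨0, g.y, 0⟩ * ⟨0, 0, g.z - g.x * g.y⟩ := by
    ext
    · show g.x = g.x + 0 + 0; ring
    · show g.y = 0 + g.y + 0; ring
    · show g.z = ((0 : ℤ) + 0 + g.x * g.y) + (g.z - g.x * g.y) + (g.x + 0) * 0; ring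
  have h : g ∈ rng := by
    rw [this]
    exact rng.mul_mem (rng.mul_mem (hx _) (hy _)) (hz _)
  exact h

/-- the integral system -/
def SZ : CS (Hs ℤ) 12 where
  gen := gz
  iv := Fin.rev
  hiv := gz_inv
  one := gz_one
  inj := gz_inj
  top := all_rng

/-- reduction -/
def red (N : ℕ) : Hs ℤ →* Hs (ZMod N) where
  toFun g := ⟨g.x, g.y, g.z⟩
  map_one' := by
    show (⟨((0 : ℤ) : ZMod N), ((0 : ℤ) : ZMod N), ((0 : ℤ) : ZMod N)⟩ : Hs (ZMod N)) = ⟨0, 0, 0⟩
    rw [Int.cast_zero]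
  map_mul' g h := by
    show (⟨((g.x + h.x : ℤ) : ZMod N), ((g.y + h.y : ℤ) : ZMod N),
      ((g.z + h.z + g.x * h.y : ℤ) : ZMod N)⟩ : Hs (ZMod N)) =
      ⟨(g.x : ZMod N) + h.x, (g.y : ZMod N) + h.y, (g.z : ZMod N) + h.z + g.x * h.y⟩
    push_cast
    rfl

lemma red_surj (N : ℕ) : Function.Surjective (red N) := by
  intro g
  obtain ⟨a, ha⟩ := ZMod.intCast_surjective g.x
  obtain ⟨b, hb⟩ := ZMod.intCast_surjective g.y
  obtain ⟨c, hc⟩ := ZMod.intCast_surjective g.z
  exact ⟨⟨a, b, c⟩, Hs.ext ha hb hc⟩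

lemma word_bound (u : List (Fin 12)) : |(evz u).x| ≤ u.length ∧ |(evz u).y| ≤ 2 * u.length ∧
    |(evz u).z| ≤ 2 * u.length + 2 * u.length * u.length := by
  induction u with
  | nil => decide
  | cons i u ih =>
    obtain ⟨h1, h2, h3⟩ := ih
    have hb : ∀ i : Fin 12, |(gz i).x| ≤ 1 ∧ |(gz i).y| ≤ 2 ∧ |(gz i).z| ≤ 2 := by decide
    obtain ⟨b1, b2, b3⟩ := hb i
    rw [evz_cons, Hs.mul_x, Hs.mul_y, Hs.mul_z, List.length_cons]
    push_cast
    have h4 : |(gz i).x * (evz u).y| ≤ 2 * u.length := by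
      rw [abs_mul]
      calc |(gz i).x| * |(evz u).y| ≤ 1 * (2 * u.length) :=
            mul_le_mul b1 h2 (abs_nonneg _) (by norm_num)
        _ = _ := one_mul _
    refine ⟨?_, ?_, ?_⟩
    · exact (abs_add_le _ _).trans (by linarith)
    · exact (abs_add_le _ _).trans (by linarith)
    · refine (abs_add_le _ _).trans ?_
      have := abs_add_le (gz i).z (evz u).z
      nlinarith

lemma cast_inj {N : ℕ} {a b : ℤ} {B : ℤ} (ha : |a| ≤ B) (hb : |b| ≤ B) (hN : 2 * B < N)
    (h : (a : ZMod N) = (b : ZMod N)) : a = b := by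
  have h1 : (N : ℤ) ∣ b - a := (ZMod.intCast_eq_intCast_iff_dvd_sub a b N).1 h
  have h2 : |b - a| < N := by
    have := abs_sub b a
    rw [abs_le] at ha hb
    rw [abs_lt]
    constructor <;> linarith [ha.1, ha.2, hb.1, hb.2]
  have h3 := Int.eq_zero_of_abs_lt_dvd h1 h2
  linarith

lemma red_inj {N r : ℕ} (hN : 4 * (r + 1) * (r + 2) < N) {u v : List (Fin 12)}
    (hu : u.length ≤ r + 1) (hv : v.length ≤ r + 1) (h : red N (evz u) = red N (evz v)) :
    evz u = evz v := by
  have key : ∀ w : List (Fin 12), w.length ≤ r + 1 → |(evz w).x| ≤ 2 * (r + 1) * (r + 2) ∧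
      |(evz w).y| ≤ 2 * (r + 1) * (r + 2) ∧ |(evz w).z| ≤ 2 * (r + 1) * (r + 2) := by
    intro w hw
    obtain ⟨h1, h2, h3⟩ := word_bound w
    have hw' : (w.length : ℤ) ≤ r + 1 := by exact_mod_cast hw
    have h0 : (0 : ℤ) ≤ w.length := by positivity
    have hr : (0 : ℤ) ≤ r := by positivity
    refine ⟨?_, ?_, ?_⟩ <;> nlinarith
  obtain ⟨a1, a2, a3⟩ := key u hu
  obtain ⟨b1, b2, b3⟩ := key v hv
  have hN' : 2 * (2 * ((r : ℤ) + 1) * (r + 2)) < N := by
    have : ((4 * (r + 1) * (r + 2) : ℕ) : ℤ) < N := by exact_mod_cast hN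
    push_cast at this
    linarith
  have hx := congrArg Hs.x h
  have hy := congrArg Hs.y h
  have hz := congrArg Hs.z h
  exact Hs.ext (cast_inj a1 b1 hN' hx) (cast_inj a2 b2 hN' hy) (cast_inj a3 b3 hN' hz)

/-- the finite systems -/
def SN (N : ℕ) (hN : 8 < N) : CS (Hs (ZMod N)) 12 where
  gen i := red N (gz i)
  iv := Fin.rev
  hiv i := by rw [gz_inv, map_inv]
  one i := by
    intro h
    apply gz_one i
    have e1 : evz [i] = gz i := by rw [evz_cons]; exact mul_one _
    rw [← e1]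
    have e2 : (1 : Hs ℤ) = evz [] := rfl
    rw [e2]
    refine red_inj (r := 0) (by omega) (by simp) (by simp) ?_
    rw [e1, h, ← e2, map_one]
  inj i j h := by
    apply gz_inj
    have e1 : ∀ i, evz [i] = gz i := fun i => by rw [evz_cons]; exact mul_one _
    rw [← e1, ← e1]
    refine red_inj (r := 0) (by omega) (by simp) (by simp) ?_
    rw [e1, e1]
    exact h
  top g := by
    obtain ⟨g', rfl⟩ := red_surj N g
    obtain ⟨u, rfl⟩ := all_rng g'
    refine ⟨u, ?_⟩
    unfold evz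
    rw [map_list_prod, List.map_map]
    rfl

lemma ev_SN (N : ℕ) (hN : 8 < N) (u : List (Fin 12)) : (SN N hN).ev u = red N (evz u) := by
  unfold CS.ev evz
  rw [map_list_prod, List.map_map]
  rfl

lemma BM_red {N r : ℕ} (hN : 4 * (r + 1) * (r + 2) < N) (hN' : 8 < N) :
    BM SZ.Cay 1 (SN N hN').Cay 1 r (red N) := by
  have word : ∀ x, SZ.Cay.dist 1 x ≤ r → ∃ u : List (Fin 12), u.length ≤ r ∧ evz u = x := by
    intro x hx
    obtain ⟨u, h1, h2⟩ := SZ.dist_word x
    exact ⟨u, by omega, h2⟩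
  refine ⟨map_one _, ?_, ?_, ?_, ?_⟩
  · intro x y hx hy
    obtain ⟨u, hu, rfl⟩ := word x hx
    obtain ⟨v, hv, rfl⟩ := word y hy
    rw [CS.adj_iff, CS.adj_iff]
    constructor
    · rintro ⟨i, hi⟩
      refine ⟨i, ?_⟩
      rw [hi, map_mul]
      rfl
    · rintro ⟨i, hi⟩
      refine ⟨i, ?_⟩
      have e : SZ.gen i * evz u = evz (i :: u) := (evz_cons i u).symm
      rw [e]
      apply red_inj hN (by omega) (by rw [List.length_cons]; omega)
      rw [hi, evz_cons, map_mul]
      rfl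
  · intro x y hx hy h
    obtain ⟨u, hu, rfl⟩ := word x hx
    obtain ⟨v, hv, rfl⟩ := word y hy
    exact red_inj hN (by omega) (by omega) h
  · intro x hx
    obtain ⟨u, hu, rfl⟩ := word x hx
    rw [← ev_SN N hN']
    exact ((SN N hN').dist_ev u).trans hu
  · intro y hy
    obtain ⟨u, h1, h2⟩ := (SN N hN').dist_word y
    refine ⟨evz u, ?_, ?_⟩
    · have := SZ.dist_ev u
      have e : SZ.ev u = evz u := rfl
      rw [e] at this
      omega
    · rw [← ev_SN N hN', h2]


/-- neighbour lists of the link -/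
def nb : Fin 12 → List (Fin 12) := ![[1], [0, 2, 3, 5], [1, 4, 6], [1, 7], [2, 8, 10], [1, 9],
  [2, 10], [3, 10, 11], [4, 9], [5, 8, 10], [4, 6, 7, 9], [7]]

/-- the link as a table -/
def T (i j : Fin 12) : Bool := decide (j ∈ nb i)

lemma hT : ∀ i j, (T i j = true) ↔ SZ.link i j := by
  show ∀ i j, (T i j = true) ↔ ∃ k, gz j = gz k * gz i
  have h : ∀ i j, (T i j = true) ↔ ∃ k, gz j =
      ⟨(gz k).x + (gz i).x, (gz k).y + (gz i).y, (gz k).z + (gz i).z + (gz k).x * (gz i).y⟩ := by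
    decide +kernel
  exact h

/-- number of walks of given length in the link -/
def wc : ℕ → Fin 12 → ℕ
  | 0, _ => 1
  | k + 1, i => ∑ j, if T i j then wc k j else 0

lemma wc_inj : ∀ i j, wc 4 i = wc 4 j → i = j := by decide +kernel

lemma wc_inv (f : Equiv.Perm (Fin 12)) (h : ∀ i j, T (f i) (f j) = T i j) (k : ℕ) (i : Fin 12) :
    wc k (f i) = wc k i := by
  induction k generalizing i with
  | zero => rfl
  | succ k ih =>
    show (∑ j, if T (f i) j then wc k j else 0) = ∑ j, if T i j then wc k j else 0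
    rw [← Equiv.sum_comp f]
    apply Finset.sum_congr rfl
    intro j _
    rw [h, ih]

lemma rigid : Rigid SZ := by
  intro f hf h
  have h2 : ∀ i j, T (f i) (f j) = T i j := by
    intro i j
    have := h i j
    rw [← hT, ← hT] at this
    exact Bool.eq_iff_iff.2 this
  funext i
  have h3 := wc_inv (Equiv.ofBijective f hf) h2 4 i
  exact wc_inj _ _ h3

section comm

variable {G : Type} [Group G] {X Y Z : G}

lemma comm1 (h : X * Y = Z * Y * X) (hX : Commute Z X) (a : ℕ) :
    X ^ a * Y = Z ^ a * Y * X ^ a := by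
  induction a with
  | zero => simp
  | succ a ih =>
    have h2 : X * Z ^ a = Z ^ a * X := ((hX.pow_left a).eq).symm
    calc X ^ (a + 1) * Y = X * (X ^ a * Y) := by rw [pow_succ', mul_assoc]
      _ = X * (Z ^ a * Y * X ^ a) := by rw [ih]
      _ = (X * Z ^ a) * Y * X ^ a := by simp only [mul_assoc]
      _ = Z ^ a * (X * Y) * X ^ a := by rw [h2]; simp only [mul_assoc]
      _ = Z ^ a * (Z * Y * X) * X ^ a := by rw [h]
      _ = (Z ^ a * Z) * Y * (X * X ^ a) := by simp only [mul_assoc]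
      _ = Z ^ (a + 1) * Y * X ^ (a + 1) := by rw [← pow_succ, ← pow_succ']

lemma comm2 (h : X * Y = Z * Y * X) (hX : Commute Z X) (hY : Commute Z Y) (a b : ℕ) :
    X ^ a * Y ^ b = Z ^ (a * b) * Y ^ b * X ^ a := by
  induction b with
  | zero => simp
  | succ b ih =>
    have h2 : Y ^ b * Z ^ a = Z ^ a * Y ^ b := ((hY.pow_pow a b).eq).symm
    calc X ^ a * Y ^ (b + 1) = (X ^ a * Y ^ b) * Y := by rw [pow_succ, mul_assoc]
      _ = (Z ^ (a * b) * Y ^ b * X ^ a) * Y := by rw [ih]
      _ = Z ^ (a * b) * Y ^ b * (X ^ a * Y) := by simp only [mul_assoc]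
      _ = Z ^ (a * b) * Y ^ b * (Z ^ a * Y * X ^ a) := by rw [comm1 h hX]
      _ = Z ^ (a * b) * (Y ^ b * Z ^ a) * Y * X ^ a := by simp only [mul_assoc]
      _ = Z ^ (a * b) * (Z ^ a * Y ^ b) * Y * X ^ a := by rw [h2]
      _ = (Z ^ (a * b) * Z ^ a) * (Y ^ b * Y) * X ^ a := by simp only [mul_assoc]
      _ = Z ^ (a * (b + 1)) * Y ^ (b + 1) * X ^ a := by
        rw [← pow_add, ← pow_succ, mul_add, mul_one]

lemma comm3 {X' Y' : G} (h : X * Y = Z * Y * X) (hX : Commute Z X) (hY : Commute Z Y)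
    (hX' : X' = X⁻¹) (hY' : Y' = Y⁻¹) (a b : ℕ) :
    X ^ a * Y ^ b * X' ^ a * Y' ^ b = Z ^ (a * b) := by
  subst hX'; subst hY'
  rw [comm2 h hX hY, inv_pow, inv_pow, mul_inv_cancel_right, mul_inv_cancel_right]

end comm

/-- the test word -/
def tw (n q t : ℕ) : List (Fin 12) :=
  List.replicate n 8 ++ List.replicate q 7 ++ List.replicate n 3 ++ List.replicate q 4 ++
    (List.replicate t 8 ++ List.replicate 1 7 ++ List.replicate t 3 ++ List.replicate 1 4)

lemma tw_length (n q t : ℕ) : (tw n q t).length = 2 * n + 2 * q + 2 * t + 2 := by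
  unfold tw
  simp only [List.length_append, List.length_replicate]
  omega

lemma tw_val {G : Type} [Group G] (P : Fin 12 → G) (h : P 8 * P 7 = P 6 * P 7 * P 8)
    (h1 : Commute (P 6) (P 8)) (h2 : Commute (P 6) (P 7)) (h3 : P 3 = (P 8)⁻¹)
    (h4 : P 4 = (P 7)⁻¹) (n q t : ℕ) :
    ((tw n q t).map P).prod = P 6 ^ (n * q + t) := by
  unfold tw
  simp only [List.map_append, List.prod_append, List.map_replicate, List.prod_replicate]
  rw [comm3 h h1 h2 h3 h4, comm3 h h1 h2 h3 h4, ← pow_add, mul_one]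

section bound

variable {W : Type} [Finite W] {H : SimpleGraph W}

lemma big_order {r n : ℕ} (hn : 1 ≤ n) (hr : 6 * n + 2 ≤ r) (a : Act SZ H r) [Nonempty W] :
    n * n < orderOf (a.P 6) := by
  by_contra hcon
  rw [not_lt] at hcon
  set m := orderOf (a.P 6) with hm
  have hmpos : 0 < m := orderOf_pos _
  have hdiv := Nat.div_add_mod m n
  have hq : m / n ≤ n := by
    rw [Nat.div_le_iff_le_mul_add_pred (by omega)]
    omega
  have ht : m % n < n := Nat.mod_lt _ (by omega)
  have rel := a.rel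
  have hS : ∀ u v : List (Fin 12), u.length ≤ r → v.length ≤ r → evz u = evz v →
      (u.map a.P).prod = (v.map a.P).prod := rel
  have e1 : a.P 8 * a.P 7 = a.P 6 * a.P 7 * a.P 8 := by
    have := hS [8, 7] [6, 7, 8] (by simp; omega) (by simp; omega) (by decide)
    simpa [mul_assoc] using this
  have e2 : a.P 6 * a.P 8 = a.P 8 * a.P 6 := by
    have := hS [6, 8] [8, 6] (by simp; omega) (by simp; omega) (by decide)
    simpa [mul_assoc] using this
  have e3 : a.P 6 * a.P 7 = a.P 7 * a.P 6 := by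
    have := hS [6, 7] [7, 6] (by simp; omega) (by simp; omega) (by decide)
    simpa [mul_assoc] using this
  have e4 : a.P 3 = (a.P 8)⁻¹ := by
    have := hS [3, 8] [] (by simp; omega) (by simp) (by decide)
    rw [eq_inv_iff_mul_eq_one]
    simpa using this
  have e5 : a.P 4 = (a.P 7)⁻¹ := by
    have := hS [4, 7] [] (by simp; omega) (by simp) (by decide)
    rw [eq_inv_iff_mul_eq_one]
    simpa using this
  have h1 := tw_val a.P e1 e2 e3 e4 e5 n (m / n) (m % n)
  rw [hdiv, hm, pow_orderOf_eq_one] at h1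
  obtain ⟨w⟩ := (inferInstance : Nonempty W)
  have h2 := a.free (tw n (m / n) (m % n)) w (by rw [tw_length]; omega) (by
    rw [← hm] at h1
    rw [h1]; rfl)
  have h3 := tw_val gz (by decide) (by show gz 6 * gz 8 = gz 8 * gz 6; decide)
    (by show gz 6 * gz 7 = gz 7 * gz 6; decide) (by decide) (by decide) n (m / n) (m % n)
  have h4 : SZ.ev (tw n (m / n) (m % n)) = ((tw n (m / n) (m % n)).map gz).prod := rfl
  rw [h4, h3, hdiv, pz] at h2
  have h5 := congrArg Hs.z h2
  have h6 : (m : ℤ) = 0 := h5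
  omega

/-- x-coordinate of a generator -/
def al (i : Fin 12) : ℤ := (gl i).1

lemma al_abs : ∀ i, |al i| ≤ 1 := by decide

lemma al_sum (u : List (Fin 12)) : |(u.map al).sum| ≤ u.length := by
  induction u with
  | nil => decide
  | cons i u ih =>
    rw [List.map_cons, List.sum_cons, List.length_cons]
    push_cast
    have := abs_add_le (al i) (u.map al).sum
    have h2 := al_abs i
    linarith

lemma gen_comm {r : ℕ} (hr : 3 ≤ r) (a : Act SZ H r) (i : Fin 12) :
    a.P i * a.P 6 = a.P 6 * a.P i ∧ a.P i * a.P 7 = a.P 6 ^ (al i) * a.P 7 * a.P i := by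
  have hS : ∀ u v : List (Fin 12), u.length ≤ r → v.length ≤ r → evz u = evz v →
      (u.map a.P).prod = (v.map a.P).prod := a.rel
  constructor
  · have h0 : ∀ i, evz [i, 6] = evz [6, i] := by decide
    have := hS [i, 6] [6, i] (by simp; omega) (by simp; omega) (h0 i)
    simpa [mul_assoc] using this
  · have h0 : ∀ i, (al i = 0 ∧ evz [i, 7] = evz [7, i]) ∨ (al i = 1 ∧ evz [i, 7] = evz [6, 7, i]) ∨
        (al i = -1 ∧ evz [6, i, 7] = evz [7, i]) := by decide
    rcases h0 i with ⟨h1, h2⟩ | ⟨h1, h2⟩ | ⟨h1, h2⟩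
    · have := hS [i, 7] [7, i] (by simp; omega) (by simp; omega) h2
      rw [h1, zpow_zero, one_mul]
      simpa [mul_assoc] using this
    · have := hS [i, 7] [6, 7, i] (by simp; omega) (by simp; omega) h2
      rw [h1, zpow_one]
      simpa [mul_assoc] using this
    · have := hS [6, i, 7] [7, i] (by simp; omega) (by simp; omega) h2
      rw [h1, zpow_neg, zpow_one]
      have h3 : a.P 6 * (a.P i * a.P 7) = a.P 7 * a.P i := by simpa [mul_assoc] using this
      rw [mul_assoc, ← h3, inv_mul_cancel_left]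

lemma word_comm {r : ℕ} (hr : 3 ≤ r) (a : Act SZ H r) (u : List (Fin 12)) :
    (u.map a.P).prod * a.P 7 = a.P 6 ^ (u.map al).sum * a.P 7 * (u.map a.P).prod := by
  induction u with
  | nil => simp
  | cons i u ih =>
    obtain ⟨h1, h2⟩ := gen_comm hr a i
    have h3 : a.P i * a.P 6 ^ (u.map al).sum = a.P 6 ^ (u.map al).sum * a.P i := by
      have : Commute (a.P i) (a.P 6) := h1
      exact (this.zpow_right _).eq
    rw [List.map_cons, List.prod_cons, List.map_cons, List.sum_cons]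
    calc a.P i * (u.map a.P).prod * a.P 7 = a.P i * ((u.map a.P).prod * a.P 7) := by
          rw [mul_assoc]
      _ = a.P i * (a.P 6 ^ (u.map al).sum * a.P 7 * (u.map a.P).prod) := by rw [ih]
      _ = (a.P i * a.P 6 ^ (u.map al).sum) * a.P 7 * (u.map a.P).prod := by
          simp only [mul_assoc]
      _ = a.P 6 ^ (u.map al).sum * (a.P i * a.P 7) * (u.map a.P).prod := by
          rw [h3]; simp only [mul_assoc]
      _ = a.P 6 ^ (u.map al).sum * (a.P 6 ^ al i * a.P 7 * a.P i) * (u.map a.P).prod := by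
          rw [h2]
      _ = (a.P 6 ^ (u.map al).sum * a.P 6 ^ al i) * a.P 7 * (a.P i * (u.map a.P).prod) := by
          simp only [mul_assoc]
      _ = _ := by rw [← zpow_add, add_comm]

/-- the diameter of a vertex-transitive quotient is at least half the order of the centre -/
lemma diam_bound {r : ℕ} (hr : 3 ≤ r) (hH : H.Connected)
    (hVT : ∀ u v : W, ∃ φ : H ≃g H, φ u = v) (a : Act SZ H r) :
    orderOf (a.P 6) / 2 ≤ H.diam := by
  by_contra hcon
  rw [not_le] at hcon
  have hne := hH.nonempty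
  obtain ⟨w⟩ := hne
  set h := orderOf (a.P 6) / 2 with hh
  set w' := (a.P 8 ^ h) w with hw'
  obtain ⟨p, hp⟩ := hH.exists_walk_length_eq_dist w w'
  obtain ⟨u, hu1, hu2⟩ := a.walk_word p
  have hd : H.dist w w' ≤ H.diam := by
    have : Nonempty W := ⟨w⟩
    exact SimpleGraph.dist_le_diam (SimpleGraph.connected_iff_ediam_ne_top.1 hH)
  have hrep : ((List.replicate h (8 : Fin 12)).map a.P).prod = a.P 8 ^ h := by
    rw [List.map_replicate, List.prod_replicate]
  have hperm : (u.map a.P).prod = a.P 8 ^ h := by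
    ext v
    obtain ⟨ψ, hψ⟩ := hVT w v
    rw [← hψ, ← a.aut_word rigid ψ, hu2, hw', ← hrep, a.aut_word rigid ψ]
  have h1 := word_comm hr a u
  have h2 := word_comm hr a (List.replicate h (8 : Fin 12))
  rw [hrep] at h2
  rw [hperm, h2] at h1
  have h3 : a.P 6 ^ (List.map al (List.replicate h (8 : Fin 12))).sum = a.P 6 ^ (u.map al).sum :=
    mul_right_cancel (mul_right_cancel h1)
  have h4 : (List.map al (List.replicate h (8 : Fin 12))).sum = h := by
    rw [List.map_replicate, List.sum_replicate]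
    have : al 8 = 1 := by decide
    rw [this]; simp
  rw [h4] at h3
  have h5 : (orderOf (a.P 6) : ℤ) ∣ (h : ℤ) - (u.map al).sum := by
    rw [← orderOf_dvd_sub_iff_zpow_eq_zpow] at h3
    exact h3
  have h6 := al_sum u
  have h7 : ((u.length : ℕ) : ℤ) < h := by
    have : u.length < h := by omega
    exact_mod_cast this
  rw [abs_le] at h6
  have h8 : |(h : ℤ) - (u.map al).sum| < orderOf (a.P 6) := by
    have : 2 * (h : ℤ) ≤ orderOf (a.P 6) := by
      have := Nat.div_mul_le_self (orderOf (a.P 6)) 2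
      rw [← hh] at this
      have h9 : ((h * 2 : ℕ) : ℤ) ≤ orderOf (a.P 6) := by exact_mod_cast this
      push_cast at h9
      linarith
    rw [abs_lt]
    constructor <;> linarith [h6.1, h6.2]
  have h9 := Int.eq_zero_of_abs_lt_dvd h5 h8
  linarith [h6.1, h6.2]

end bound


/-- every automorphism orbit is everything: the graph is vertex-transitive -/
def VertexTransitive {V : Type} (G : SimpleGraph V) : Prop :=
  ∀ u v : V, ∃ φ : G ≃g G, φ u = v

/-- `D_G(r)`: the least diameter of a finite connected vertex-transitive graph `H` with the same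
`r`-ball as `G`; it is `⊤` when there is no such graph -/
noncomputable def D {V : Type} (G : SimpleGraph V) (r : ℕ) : ℕ∞ :=
  sInf {d : ℕ∞ | ∃ (W : Type) (_ : Finite W) (H : SimpleGraph W), H.Connected ∧
    VertexTransitive H ∧ (∀ (v : V) (w : W), SameBall G v H w r) ∧ d = (H.diam : ℕ∞)}

lemma heis_inf : Infinite (Hs ℤ) := by
  apply Infinite.of_injective (fun k : ℤ => (⟨k, 0, 0⟩ : Hs ℤ))
  intro a b h
  exact congrArg Hs.x h

lemma heis_lf (g : Hs ℤ) : (SZ.Cay.neighborSet g).Finite := by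
  apply (Set.finite_range (fun i => SZ.gen i * g)).subset
  rintro h ⟨i, hi⟩
  exact ⟨i, hi.symm⟩

lemma D_lt_top (r : ℕ) : D SZ.Cay r < ⊤ := by
  obtain ⟨N, hN1⟩ := exists_gt (4 * (r + 1) * (r + 2) + 8)
  have hN : 4 * (r + 1) * (r + 2) < N := by omega
  have hN8 : 8 < N := by omega
  have : NeZero N := ⟨by omega⟩
  have hfin : Finite (Hs (ZMod N)) := by
    apply Finite.of_injective (fun g : Hs (ZMod N) => (g.x, g.y, g.z))
    intro a b h
    simp only [Prod.mk.injEq] at h
    exact Hs.ext h.1 h.2.1 h.2.2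
  refine lt_of_le_of_lt (sInf_le ⟨Hs (ZMod N), hfin, (SN N hN8).Cay, (SN N hN8).conn,
    (SN N hN8).trans, ?_, rfl⟩) (ENat.natCast_lt_top _)
  intro v w
  obtain ⟨θ, hθ⟩ := SZ.trans 1 v
  obtain ⟨ψ, hψ⟩ := (SN N hN8).trans 1 w
  have h := (BM_red hN hN8).transport θ ψ
  rw [hθ, hψ] at h
  exact h.sameBall

lemma D_big (n : ℕ) (hn : 1 ≤ n) : ((n * n / 2 : ℕ) : ℕ∞) ≤ D SZ.Cay (6 * n + 2) := by
  apply le_sInf
  rintro _ ⟨W, hW, H, hH, hVT, hB, rfl⟩
  have hB' : ∀ w, ∃ f, BM SZ.Cay 1 H w (6 * n + 2) f := fun w => (hB 1 w).exists_map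
  obtain ⟨a⟩ := exists_act hH rigid (by omega) hB'
  have : Nonempty W := hH.nonempty
  have h1 := big_order hn le_rfl a
  have h2 := diam_bound (by omega) hH hVT a
  have h3 : n * n / 2 ≤ H.diam := by omega
  exact_mod_cast h3

/-- There is an infinite, connected, locally finite, vertex-transitive graph `G` with `D_G(r)`
finite for every `r ≥ 1` for which no constant `c` satisfies `D_G(r) ≤ c r` for all `r ≥ 1`. -/
theorem result : ∃ (V : Type) (G : SimpleGraph V), Infinite V ∧ G.Connected ∧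
    (∀ v : V, (G.neighborSet v).Finite) ∧ VertexTransitive G ∧
    (∀ r : ℕ, 1 ≤ r → D G r < ⊤) ∧
    (∀ c : ℕ, ∃ r : ℕ, 1 ≤ r ∧ ((c * r : ℕ) : ℕ∞) < D G r) := by
  refine ⟨Hs ℤ, SZ.Cay, heis_inf, SZ.conn, heis_lf, SZ.trans, fun r _ => D_lt_top r, ?_⟩
  intro c
  refine ⟨6 * (12 * c + 12) + 2, by omega, ?_⟩
  refine lt_of_lt_of_le ?_ (D_big (12 * c + 12) (by omega))
  have h : c * (6 * (12 * c + 12) + 2) + 1 ≤ (12 * c + 12) * (12 * c + 12) / 2 := by
    rw [Nat.le_div_iff_mul_le (by norm_num)]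
    nlinarith
  have h2 : c * (6 * (12 * c + 12) + 2) < (12 * c + 12) * (12 * c + 12) / 2 := h
  exact_mod_cast h2

end Pool.Agent.Results.MP_6bdaeb_co.Superlinear
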